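import Mathlib

set_option autoImplicit false

namespace Pool.Agent.Results.MP_e04a0d_gt.Sn

open Set Filter Topology TopologicalSpace Metric
open scoped Cardinal

universe u

/-- covering dimension at most `n`: finite open covers have finite open refinements of order at most `n + 1` -/
def DimLE (Z : Type u) [TopologicalSpace Z] (n : ℕ) : Prop :=
  ∀ 𝒰 : Set (Set Z), 𝒰.Finite → (∀ U ∈ 𝒰, IsOpen U) → ⋃₀ 𝒰 = univ →
    ∃ 𝒱 : Set (Set Z), 𝒱.Finite ∧ (∀ V ∈ 𝒱, IsOpen V ∧ ∃ U ∈ 𝒰, V ⊆ U) ∧ ⋃₀ 𝒱 = univ ∧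
      ∀ x, {V | V ∈ 𝒱 ∧ x ∈ V}.ncard ≤ n + 1

/-- `μ` is an `𝓜_dim`-extension of `τ`: a finer metrizable topology of covering dimension exactly `0` -/
def MExt {X : Type u} (τ μ : TopologicalSpace X) : Prop :=
  (∀ U, IsOpen[τ] U → IsOpen[μ] U) ∧ @MetrizableSpace X μ ∧ @DimLE X μ 0 ∧ Nonempty X

/-- the sizes of the families of `𝓜_dim`-extensions whose intersection is `τ` -/
def Sizes {X : Type u} (τ : TopologicalSpace X) : Set Cardinal.{u} :=
  {κ | ∃ (I : Type u) (t : I → TopologicalSpace X), #I = κ ∧ (∀ i, MExt τ (t i)) ∧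
    ∀ U, IsOpen[τ] U ↔ ∀ i, IsOpen[t i] U}

theorem dim0_lab {Z : Type u} [TopologicalSpace Z] (h : DimLE Z 0) {ι : Type*} [Finite ι] (u : ι → Set Z)
    (ho : ∀ i, IsOpen (u i)) (hc : ∀ x, ∃ i, x ∈ u i) :
    ∃ c : Z → ι, (∀ x, x ∈ u (c x)) ∧ ∀ x, ∀ᶠ y in 𝓝 x, c y = c x := by
  obtain ⟨𝒱, hf, h1, h2, h3⟩ := h (range u) (finite_range u) (forall_mem_range.2 ho)
    (by rw [sUnion_range]; exact iUnion_eq_univ_iff.2 hc)
  have h4 : ∀ V : 𝒱, ∃ i, V.1 ⊆ u i := fun V => by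
    obtain ⟨-, _, ⟨i, rfl⟩, h⟩ := h1 V.1 V.2
    exact ⟨i, h⟩
  choose p hp using h4
  have h5 : ∀ x, ∃ V : 𝒱, x ∈ V.1 := fun x => by
    obtain ⟨V, hV, hx⟩ : x ∈ ⋃₀ 𝒱 := h2 ▸ mem_univ x
    exact ⟨⟨V, hV⟩, hx⟩
  choose V hV using h5
  refine ⟨fun x => p (V x), fun x => hp _ (hV x), fun x => ?_⟩
  filter_upwards [(h1 _ (V x).2).1.mem_nhds (hV x)] with y hy
  have := (ncard_le_one (hf.subset fun _ h => h.1)).1 (h3 y) (V y) ⟨(V y).2, hV y⟩ (V x) ⟨(V x).2, hy⟩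
  rw [Subtype.ext this]

theorem dim0_of {Z : Type u} [TopologicalSpace Z]
    (h : ∀ 𝒰 : Set (Set Z), (∀ U ∈ 𝒰, IsOpen U) → ⋃₀ 𝒰 = univ → ∃ c : Z → Set Z,
      (∀ x, x ∈ c x ∧ ∃ U ∈ 𝒰, c x ⊆ U) ∧ ∀ x, ∀ᶠ y in 𝓝 x, c y = c x) : DimLE Z 0 := by
  intro 𝒰 hf ho hc
  obtain ⟨c, h1, h2⟩ := h 𝒰 ho hc
  classical
  let p : Set Z → Set Z := fun S => if h : ∃ U ∈ 𝒰, S ⊆ U then h.choose else ∅
  have hp : ∀ x, p (c x) ∈ 𝒰 ∧ c x ⊆ p (c x) := fun x => by
    simp only [p, dif_pos (h1 x).2]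
    exact (h1 x).2.choose_spec
  refine ⟨(fun U => {x | p (c x) = U}) '' 𝒰, hf.image _, ?_, ?_, fun x => ?_⟩
  · rintro _ ⟨U, hU, rfl⟩
    refine ⟨isOpen_iff_mem_nhds.2 fun x hx => (h2 x).mono fun y hy => ?_, U, hU, fun x hx => ?_⟩
    · show p (c y) = U
      rw [hy]; exact hx
    · exact (show p (c x) = U from hx) ▸ (hp x).2 (h1 x).1
  · exact eq_univ_of_forall fun x => ⟨_, ⟨_, (hp x).1, rfl⟩, rfl⟩
  · refine (ncard_le_ncard (t := {{y | p (c y) = p (c x)}}) ?_ (finite_singleton _)).trans (by simp)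
    rintro _ ⟨⟨U, -, rfl⟩, hx⟩
    rw [show p (c x) = U from hx]
    rfl

theorem count {I L : Type*} [Fintype I] [DecidableEq I] [DecidableEq L] (A : Finset (Finset (I × L)))
    (ρ : Finset (I × L) → ℝ) (n : ℕ) (hn : Fintype.card I = n) (hA : ∀ σ ∈ A, σ.card ≤ n)
    (h : ∀ σ ∈ A, ∀ μ ⊂ σ, ∃ e : I → L, (∀ t, (t, e t) ∉ μ) ∧ ∀ σ' ∈ A, ρ σ ≤ ρ σ' → ∃ t, (t, e t) ∈ σ') (k : ℕ) :
    ∀ μ : Finset (I × L), n ≤ μ.card + k → (A.filter (μ ⊆ ·)).card ≤ (n + 1) ^ k := by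
  induction k with
  | zero =>
    intro μ hμ
    refine (Finset.card_le_card (t := {μ}) fun σ hσ => ?_).trans (by simp)
    obtain ⟨h1, h2⟩ := Finset.mem_filter.1 hσ
    exact Finset.mem_singleton.2 (Finset.eq_of_subset_of_card_le h2 ((hA σ h1).trans hμ)).symm
  | succ k ih =>
    intro μ hμ
    rcases (A.filter (μ ⊂ ·)).eq_empty_or_nonempty with h0 | h0
    · refine (Finset.card_le_card (t := {μ}) fun σ hσ => ?_).trans (by simpa using Nat.one_le_pow _ _ n.succ_pos)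
      obtain ⟨h1, h2⟩ := Finset.mem_filter.1 hσ
      by_contra h3
      exact Finset.eq_empty_iff_forall_notMem.1 h0 σ (Finset.mem_filter.2 ⟨h1,
        Finset.ssubset_iff_subset_ne.2 ⟨h2, fun h => h3 (Finset.mem_singleton.2 h.symm)⟩⟩)
    · obtain ⟨σ0, h1, h2⟩ := Finset.exists_min_image _ ρ h0
      obtain ⟨e, he, he'⟩ := h σ0 (Finset.mem_filter.1 h1).1 μ (Finset.mem_filter.1 h1).2
      have h3 : A.filter (μ ⊆ ·) ⊆ insert μ (Finset.univ.biUnion fun t => A.filter (insert (t, e t) μ ⊆ ·)) := by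
        intro σ hσ
        obtain ⟨h4, h5⟩ := Finset.mem_filter.1 hσ
        rw [Finset.mem_insert, or_iff_not_imp_left]
        intro h6
        obtain ⟨t, ht⟩ := he' σ h4 (h2 σ (Finset.mem_filter.2 ⟨h4, Finset.ssubset_iff_subset_ne.2 ⟨h5, Ne.symm h6⟩⟩))
        exact Finset.mem_biUnion.2 ⟨t, Finset.mem_univ _, Finset.mem_filter.2 ⟨h4, Finset.insert_subset ht h5⟩⟩
      have h4 := Finset.card_biUnion_le_card_mul Finset.univ (fun t => A.filter (insert (t, e t) μ ⊆ ·)) ((n + 1) ^ k)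
        fun t _ => ih _ (by rw [Finset.card_insert_of_notMem (he t)]; omega)
      have h5 := (Finset.card_le_card h3).trans (Finset.card_insert_le _ _)
      have h6 := Nat.one_le_pow k _ n.succ_pos
      rw [Finset.card_univ, hn] at h4
      rw [pow_succ]
      nlinarith

theorem union_nhds {X : Type u} [m : MetricSpace X] {I : Type u} (t : I → TopologicalSpace X)
    (h : ∀ U, IsOpen U ↔ ∀ i, IsOpen[t i] U) (x : X) (W : Set X) (hx : x ∈ W) (hW : ∀ i, W ∈ @nhds X (t i) x) :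
    W ∈ 𝓝 x := by
  by_contra h1
  obtain ⟨s, hs, hl⟩ := mem_closure_iff_seq_limit.1 (mem_closure_iff_frequently.2 (not_eventually.1 h1))
  have h2 : IsOpen (range s)ᶜ := (h _).2 fun i => @isOpen_iff_mem_nhds X (t i) _ |>.2 fun y hy => by
    have h3 : (insert x (range s))ᶜ ∈ {U | IsOpen[t i] U} := (h _).1 hl.isCompact_insert_range.isClosed.isOpen_compl i
    by_cases h4 : y = x
    · exact h4 ▸ mem_of_superset (hW i) fun z hz ⟨k, hk⟩ => hs k (hk ▸ hz)
    · exact mem_of_superset (@IsOpen.mem_nhds X (t i) y _ h3 fun h => h.elim h4 hy) fun z hz h => hz (Or.inr h)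
  obtain ⟨k, hk⟩ := (hl.eventually (h2.mem_nhds fun ⟨k, hk⟩ => hs k (hk ▸ hx))).exists
  exact hk ⟨k, rfl⟩

theorem lower {X : Type u} [m : MetricSpace X] {I : Type u} [Fintype I] [Nonempty I] (t : I → TopologicalSpace X)
    (hd : ∀ i, @DimLE X (t i) 0) (h : ∀ U, IsOpen U ↔ ∀ i, IsOpen[t i] U) :
    DimLE X ((Fintype.card I + 1) ^ Fintype.card I) := by
  intro 𝒰 hf ho hc
  classical
  have := hf.to_subtype
  obtain ⟨v, hv, hvc, hvu⟩ := exists_iUnion_eq_closed_subset (u := fun U : 𝒰 => U.1) (fun U => ho _ U.2)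
    (fun _ => toFinite _) (by rw [← sUnion_eq_iUnion, hc])
  let W : Set 𝒰 → Set X := fun S => (⋂ U ∈ S, U.1) ∩ ⋂ U ∈ Sᶜ, (v U)ᶜ
  have hW : ∀ S, IsOpen (W S) := fun S => ((toFinite _).isOpen_biInter fun U _ => ho _ U.2).inter
    ((toFinite _).isOpen_biInter fun U _ => (hvc U).isOpen_compl)
  choose c hc1 hc2 using fun i => @dim0_lab X (t i) (hd i) _ _ W (fun S => (h _).1 (hW S) i) fun x =>
    ⟨{U | x ∈ U.1}, mem_iInter₂.2 fun _ h => h, mem_iInter₂.2 fun U h h' => h (hvu U h')⟩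
  let B : Finset (I × Set 𝒰) → Set X := fun σ => {w | ∃ i, (i, c i w) ∈ σ}
  have h1 : ∀ x, ∃ σ : Finset (I × Set 𝒰), Minimal (fun σ => σ ⊆ Finset.univ.image (fun i => (i, c i x)) ∧ B σ ∈ 𝓝 x) σ :=
    fun x => (exists_minimal_le_of_wellFoundedLT _ _ ⟨subset_rfl, union_nhds t h x _
      ⟨Classical.arbitrary I, Finset.mem_image_of_mem _ (Finset.mem_univ _)⟩ fun i => (hc2 i x).mono fun y hy =>
        ⟨i, hy ▸ Finset.mem_image_of_mem _ (Finset.mem_univ _)⟩⟩).imp fun _ h => h.2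
  choose σ hσ using h1
  choose r hr hr' using fun x => Metric.mem_nhds_iff.1 (hσ x).prop.2
  let G : Finset (I × Set 𝒰) → Set X := fun s => ⋃ x ∈ {x | σ x = s}, ball x (r x / 2)
  have := Fintype.ofFinite (Set 𝒰)
  refine ⟨G '' range σ, (toFinite _).image _, ?_, eq_univ_of_forall fun x => ⟨_, ⟨_, ⟨x, rfl⟩, rfl⟩,
    mem_iUnion₂.2 ⟨x, rfl, mem_ball_self (half_pos (hr x))⟩⟩, fun y => ?_⟩
  · rintro _ ⟨_, ⟨x, rfl⟩, rfl⟩
    obtain ⟨U, hU⟩ := iUnion_eq_univ_iff.1 hv x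
    refine ⟨isOpen_biUnion fun _ _ => isOpen_ball, U, U.2, fun y hy => ?_⟩
    obtain ⟨z, hz, hy⟩ := mem_iUnion₂.1 hy
    obtain ⟨i, hi⟩ := hr' z (ball_subset_ball (half_le_self (hr z).le) hy)
    rw [show σ z = σ x from hz] at hi
    obtain ⟨j, -, hj⟩ := Finset.mem_image.1 ((hσ x).prop.1 hi)
    obtain ⟨rfl, h2⟩ := Prod.ext_iff.1 hj
    have h3 : U ∈ c j x := by_contra fun h => mem_iInter₂.1 (hc1 j x).2 U h hU
    exact mem_iInter₂.1 (hc1 j y).1 U ((show c j x = c j y from h2) ▸ h3)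
  · let A : Finset (Finset (I × Set 𝒰)) := Finset.univ.filter fun s => y ∈ G s
    have h2 : ∀ s, ∃ x, s ∈ A → σ x = s ∧ y ∈ ball x (r x / 2) := fun s => by
      by_cases hs : s ∈ A
      · obtain ⟨x, h1, h2⟩ := mem_iUnion₂.1 (Finset.mem_filter.1 hs).2
        exact ⟨x, fun _ => ⟨h1, h2⟩⟩
      · exact ⟨y, fun h => (hs h).elim⟩
    choose p hp using h2
    have h3 := count A (fun s => r (p s)) _ rfl (fun s hs => by
      rw [← (hp s hs).1]
      exact (Finset.card_le_card (hσ _).prop.1).trans (Finset.card_image_le.trans Finset.card_univ.le))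
      (fun s hs μ hμ => by
        rw [← (hp s hs).1] at hμ
        have h4 : B μ ∉ 𝓝 (p s) := fun h => hμ.not_subset ((hσ _).le_of_le ⟨hμ.subset.trans (hσ _).prop.1, h⟩ hμ.subset)
        have h5 : ∀ᶠ w in 𝓝 (p s), ∀ s' ∈ A, r (p s) ≤ r (p s') → w ∈ ball (p s') (r (p s')) :=
          (eventually_all_finset A).2 fun s' hs' => by
            by_cases h6 : r (p s) ≤ r (p s')
            · refine mem_of_superset (isOpen_ball.mem_nhds ?_) fun w hw _ => hw
              have h7 := mem_ball'.1 (hp s hs).2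
              have h8 := mem_ball.1 (hp s' hs').2
              exact mem_ball.2 (by linarith [dist_triangle (p s) y (p s')])
            · exact Eventually.of_forall fun _ h => (h6 h).elim
        obtain ⟨w, h6, h7⟩ := ((not_eventually.1 h4).and_eventually h5).exists
        refine ⟨fun i => c i w, fun i hi => h6 ⟨i, hi⟩, fun s' hs' h8 => ?_⟩
        rw [← (hp s' hs').1]
        exact hr' _ (h7 s' hs' h8)) (Fintype.card I) ∅ (by simp)
    refine (ncard_le_ncard (t := G '' A) ?_ ((toFinite _).image _)).trans ((ncard_image_le (toFinite _)).trans ?_)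
    · rintro _ ⟨⟨s, -, rfl⟩, hy⟩
      exact ⟨s, Finset.mem_filter.2 ⟨Finset.mem_univ _, hy⟩, rfl⟩
    · rw [ncard_coe_finset]
      simp only [Finset.empty_subset, Finset.filter_true] at h3
      omega

theorem small {X : Type u} [MetricSpace X] (M : Set X) (hM : DimLE M 0) (ε : ℝ) (hε : 0 < ε) :
    ∃ c : X → Set M × Set X, (∀ x ∈ M, ∀ᶠ y in 𝓝 x, c y = c x) ∧ ∀ y z, c y = c z → dist y z ≤ 3 * ε := by
  obtain ⟨u, uo, uc, ul, ub⟩ := precise_refinement (fun i : M => ball i ε) (fun _ => isOpen_ball)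
    (iUnion_eq_univ_iff.2 fun x => ⟨x, mem_ball_self hε⟩)
  obtain ⟨v, vc, vcl, vu⟩ := exists_iUnion_eq_closed_subset uo ul.point_finite uc
  have h1 : ∀ i, ∃ C : Set M, IsClopen C ∧ v i ⊆ C ∧ C ⊆ u i := fun i => by
    obtain ⟨c, h1, h2⟩ := dim0_lab hM (fun b : Bool => if b then u i else (v i)ᶜ)
      (fun b => by cases b; exacts [(vcl i).isOpen_compl, uo i])
      fun x => by
        by_cases hx : x ∈ v i
        exacts [⟨true, vu i hx⟩, ⟨false, hx⟩]
    refine ⟨{x | c x = true}, ((IsLocallyConstant.iff_eventually_eq c).2 h2).isClopen_fiber true, fun x hx => ?_,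
      fun x hx => by simpa [show c x = true from hx] using h1 x⟩
    by_contra h3
    have h4 := h1 x
    rw [Bool.eq_false_iff.2 h3] at h4
    exact h4 hx
  choose C hC hv hu using h1
  let a : M → Set M := fun x => {i | x ∈ C i}
  have h2 : ∀ x : M, ∃ δ > 0, δ ≤ ε ∧ ∀ y : M, dist y x < δ → a y = a x := fun x => by
    have h3 : ∀ᶠ y in 𝓝 x, a y = a x := by
      filter_upwards [(ul.subset hu).eventually_subset (fun i => (hC i).1) x,
        (eventually_all_finite ((ul.subset hu).point_finite x)).2 fun i hi => (hC i).2.mem_nhds hi] with y h1 h2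
      exact Subset.antisymm h1 h2
    obtain ⟨δ, h4, h5⟩ := Metric.eventually_nhds_iff.1 h3
    exact ⟨min δ ε, lt_min h4 hε, min_le_right _ _, fun y hy => h5 (hy.trans_le (min_le_left _ _))⟩
  choose δ h0 hδ ha using h2
  let c : X → Set M × Set X := fun y =>
    ({i | ∃ x : M, dist y x < δ x / 2 ∧ i ∈ a x}, {z | z = y ∧ ∀ x : M, ¬ dist y x < δ x / 2})
  have h3 : ∀ (y : X) (x : M), dist y x < δ x / 2 → c y = (a x, ∅) := fun y x hx => by
    refine Prod.ext (Subset.antisymm ?_ fun i hi => ⟨x, hx, hi⟩) (eq_empty_of_forall_notMem fun z hz => hz.2 x hx)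
    rintro i ⟨x', h1, h2⟩
    have h4 := dist_triangle_left (x : X) x' y
    rcases le_total (δ x) (δ x') with h | h
    · rwa [ha x' x (by rw [Subtype.dist_eq]; linarith)]
    · rwa [← ha x x' (by rw [Subtype.dist_eq, dist_comm]; linarith)]
  refine ⟨c, fun x hx => ?_, fun y z h => ?_⟩
  · filter_upwards [ball_mem_nhds x (half_pos (h0 ⟨x, hx⟩))] with y hy
    rw [h3 y ⟨x, hx⟩ hy, h3 x ⟨x, hx⟩ (by simpa using h0 ⟨x, hx⟩)]
  · by_cases h4 : ∀ x : M, ¬ dist y x < δ x / 2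
    · have h5 : y ∈ (c z).2 := h ▸ ⟨rfl, h4⟩
      rw [show y = z from h5.1, dist_self]
      positivity
    · push Not at h4
      obtain ⟨x, hx⟩ := h4
      obtain ⟨i, hi⟩ := iUnion_eq_univ_iff.1 vc x
      obtain ⟨x', h5, h6⟩ : i ∈ (c z).1 := h ▸ ⟨x, hx, hv i hi⟩
      have h7 : dist (x : X) i < ε := ub i (vu i hi)
      have h8 : dist (x' : X) i < ε := ub i (hu i h6)
      linarith [dist_triangle y x z, dist_triangle_right (x : X) z x', dist_triangle_right (x : X) x' i, hδ x, hδ x']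

theorem ext {X : Type u} [m : MetricSpace X] [Nonempty X] (M : Set X) (hM : DimLE M 0) :
    ∃ μ, MExt m.toUniformSpace.toTopologicalSpace μ ∧ ∀ U, IsOpen[μ] U → ∀ x ∈ M ∩ U, U ∈ 𝓝 x := by
  choose c h1 h2 using fun k : ℕ => small M hM (1 / (k + 1)) Nat.one_div_pos_of_nat
  letI : UniformSpace (Set M × Set X) := ⊥
  have : DiscreteUniformity (Set M × Set X) := ⟨rfl⟩
  let F : X → ℕ → Set M × Set X := fun x k => c k x
  let Cyl : ℕ → X → Set X := fun k x => {y | ∀ j < k, c j y = c j x}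
  have h3 : ∀ x, (@nhds X (induced F inferInstance) x).HasBasis (fun _ => True) fun k => Cyl k x := fun x => by
    rw [nhds_induced]
    refine ⟨fun U => ⟨fun ⟨V, hV, h⟩ => ?_, fun ⟨k, _, h⟩ => mem_of_superset ?_ h⟩⟩
    · rw [nhds_pi, Filter.mem_pi] at hV
      obtain ⟨J, hJ, s, hs, hV⟩ := hV
      obtain ⟨k, hk⟩ := hJ.bddAbove
      exact ⟨k + 1, trivial, fun y hy => h (hV fun j hj => by
        rw [show F y j = F x j from hy j (Nat.lt_succ_of_le (hk hj))]; exact mem_of_mem_nhds (hs j))⟩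
    · refine ⟨Set.pi (Iio k) fun j => {F x j}, set_pi_mem_nhds (finite_Iio k) fun j _ => ?_, fun y hy => hy⟩
      exact (isOpen_discrete _).mem_nhds rfl
  have h4 : ∀ x, ∀ ε > 0, ∃ k, Cyl k x ⊆ ball x ε := fun x ε hε => by
    obtain ⟨k, hk⟩ := exists_nat_one_div_lt (show 0 < ε / 3 by positivity)
    exact ⟨k + 1, fun y hy => mem_ball.2 (by linarith [h2 k y x (hy k k.lt_succ_self)])⟩
  refine ⟨induced F inferInstance, ⟨fun U hU => @isOpen_iff_mem_nhds X (induced F inferInstance) _ |>.2 fun x hx => ?_,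
    ?_, ?_, inferInstance⟩, fun U hU x hx => ?_⟩
  · obtain ⟨ε, hε, h⟩ := Metric.isOpen_iff.1 hU x hx
    obtain ⟨k, hk⟩ := h4 x ε hε
    exact (h3 x).mem_iff.2 ⟨k, trivial, hk.trans h⟩
  · refine @IsEmbedding.metrizableSpace X _ (induced F inferInstance) _ _ F
      (@IsEmbedding.mk _ _ (induced F inferInstance) _ _ (@IsInducing.mk _ _ (induced F inferInstance) _ _ rfl) ?_)
    refine fun x y h => eq_of_forall_dist_le fun ε hε => ?_
    obtain ⟨k, hk⟩ := h4 y ε hε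
    exact (mem_ball.1 (hk fun j _ => congrFun h j)).le
  · refine @dim0_of X (induced F inferInstance) fun 𝒰 ho hc => ?_
    have h5 : ∀ x, ∃ k, ∃ U ∈ 𝒰, Cyl k x ⊆ U := fun x => by
      obtain ⟨U, hU, hx⟩ : x ∈ ⋃₀ 𝒰 := hc ▸ mem_univ x
      obtain ⟨k, -, hk⟩ := (h3 x).mem_iff.1 (@IsOpen.mem_nhds X (induced F inferInstance) _ _ (ho U hU) hx)
      exact ⟨k, U, hU, hk⟩
    classical
    refine ⟨fun x => Cyl (Nat.find (h5 x)) x, fun x => ⟨fun _ _ => rfl, Nat.find_spec (h5 x)⟩, fun x =>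
      (h3 x).mem_iff.2 ⟨Nat.find (h5 x), trivial, fun y hy => ?_⟩⟩
    have h6 : ∀ k ≤ Nat.find (h5 x), Cyl k y = Cyl k x := fun k hk =>
      Set.ext fun z => forall₂_congr fun j hj => by rw [hy j (hj.trans_le hk)]
    have h7 : Nat.find (h5 y) = Nat.find (h5 x) := (Nat.find_eq_iff _).2 ⟨h6 _ le_rfl ▸ Nat.find_spec (h5 x),
      fun k hk => h6 k hk.le ▸ Nat.find_min (h5 x) hk⟩
    show Cyl (Nat.find (h5 y)) y = Cyl (Nat.find (h5 x)) x
    rw [h7, h6 _ le_rfl]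
  · obtain ⟨k, -, hk⟩ := (h3 x).mem_iff.1 (@IsOpen.mem_nhds X (induced F inferInstance) _ _ hU hx.2)
    exact mem_of_superset ((eventually_all_finite (finite_Iio k)).2 fun j _ => h1 j x hx.1) hk

/-- Q1: the structural number of an infinite-dimensional countable-dimensional metrizable space is `ℵ₀` -/
theorem result {X : Type u} [τ : TopologicalSpace X] [MetrizableSpace X]
    (hc : ∃ M : ℕ → Set X, ⋃ k, M k = univ ∧ ∀ k, DimLE (M k) 0) (hi : ∀ n, ¬ DimLE X n) :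
    IsLeast (Sizes τ) ℵ₀ := by
  letI := metrizableSpaceMetric X
  have hne : Nonempty X := by_contra fun h => hi 0 (dim0_of fun _ _ _ => ⟨fun _ => ∅, fun x => (h ⟨x⟩).elim,
    fun x => (h ⟨x⟩).elim⟩)
  refine ⟨?_, ?_⟩
  · obtain ⟨M, hM, hd⟩ := hc
    choose μ h1 h2 using fun k => ext (M k) (hd k)
    refine ⟨ULift ℕ, fun k => μ k.down, by simp, fun k => h1 _, fun U => ⟨fun h k => (h1 _).1 U h, fun h => ?_⟩⟩
    refine isOpen_iff_mem_nhds.2 fun x hx => ?_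
    obtain ⟨k, hk⟩ := iUnion_eq_univ_iff.1 hM x
    exact h2 k U (h ⟨k⟩) x ⟨hk, hx⟩
  · rintro _ ⟨I, t, rfl, h1, h2⟩
    by_contra h3
    have := Cardinal.lt_aleph0_iff_finite.1 (not_le.1 h3)
    have := Fintype.ofFinite I
    rcases isEmpty_or_nonempty I with _ | _
    · refine hi 0 (dim0_of fun 𝒰 _ hc => ⟨fun x => {x}, fun x => ⟨rfl, ?_⟩, fun x =>
        mem_of_superset (((h2 {x}).2 fun i => isEmptyElim i).mem_nhds rfl) fun y hy => congrArg _ hy⟩)
      obtain ⟨U, hU, hx⟩ : x ∈ ⋃₀ 𝒰 := hc ▸ mem_univ x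
      exact ⟨U, hU, singleton_subset_iff.2 hx⟩
    · exact hi _ (lower t (fun i => (h1 i).2.2.1) h2)

end Pool.Agent.Results.MP_e04a0d_gt.Sn
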